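import Mathlib
import Pool.Agent.H94.Lee2

set_option autoImplicit false

namespace Pool.Agent.Results.MP_46ffdd_an.Holds

open Pool.Agent.H94.Lee

theorem result : ∀ (n : ℕ) (A B : Matrix (Fin n) (Fin n) ℂ) (f : ℝ → ℝ),
    ConcaveOn ℝ (Set.Ici 0) f → (∀ x, 0 ≤ x → 0 ≤ f x) →
    frob (cfc f (absM (A + B))) ≤
      Real.sqrt ((1 + Real.sqrt 2) / 2) * frob (cfc f (absM A) + cfc f (absM B)) := by
  intro n A B f hf f0
  unfold frob
  rw [← Real.sqrt_mul (by positivity)]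
  exact Real.sqrt_le_sqrt (main A B f hf f0)

end Pool.Agent.Results.MP_46ffdd_an.Holds
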